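import Pool.Agent.H47.PL.Targets2
import Pool.Agent.H70.PLN.DRU

/-!
Planted random k-CNFs and backtracking search (MP_c62aed_lc), row DR2: the probability that the
search succeeds, for search trees which depend on the coins.
-/

set_option autoImplicit false

namespace Pool.Agent.H14.PL

open Finset Pool.Agent.H97.RK Pool.Agent.H47.PL Pool.Agent.H70.PLN

section

variable {n k m : ℕ}

/-- success gives a solution -/
private theorem findC_sat (F : Fml n k m) (Ex : Finset (Fin n × Bool) → Prop)
    (ω : Finset (Fin n × Bool) → Bool) (T : TreeC n) : ∀ L, Con L → FindC F Ex ω T L →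
    ∃ τ, Sat F τ ∧ Agr τ L := by
  induction T with
  | leaf =>
    intro L hL hF
    have hA : Agr (fun v => decide ((v, true) ∈ L)) L := by
      rintro ⟨v, b⟩ hb
      cases b
      · have h1 := hL v false hb
        simpa using h1
      · simpa using hb
    refine ⟨_, fun c => ?_, hA⟩
    obtain ⟨i, hi⟩ := hF c
    exact ⟨i, hA _ hi⟩
  | node v f ih =>
    intro L hL hF
    rcases hF with ⟨b, _, hF⟩ | ⟨hn, b, _, hF⟩
    · exact ih b b L hL hF
    · obtain ⟨τ, h1, h2⟩ := ih _ b _ (con_insert hL (hn _)) hF
      exact ⟨τ, h1, fun l hl => h2 l (Finset.mem_insert_of_mem hl)⟩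

/-- the search depends on the later values only -/
private theorem findC_congr (F : Fml n k m) (Ex : Finset (Fin n × Bool) → Prop)
    (ω ω' : Finset (Fin n × Bool) → Bool) (T : TreeC n) : ∀ L,
    (∀ L', L ⊆ L' → ω L' = ω' L') → FindC F Ex ω T L → FindC F Ex ω' T L := by
  induction T with
  | leaf =>
    intro L _ hF
    exact hF
  | node v f ih =>
    intro L hL hF
    rcases hF with ⟨b, hb, hF⟩ | ⟨hn, b, hc, hF⟩
    · exact Or.inl ⟨b, hb, ih b b L hL hF⟩
    · have h1 := hL L (Finset.Subset.refl _)
      refine Or.inr ⟨hn, b, ?_, ?_⟩
      · rw [← h1]
        exact hc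
      · rw [← h1]
        exact ih _ b _ (fun L' hL' => hL L' ((Finset.subset_insert _ _).trans hL')) hF

end

open Classical in
private theorem mainC (hIND : T_IND) (n k m : ℕ) (F : Fml n k m) (D e : ℕ)
    (Ex : Finset (Fin n × Bool) → Prop)
    (Res : Finset (Fin n × Bool) → Finset (Fin n) → Prop) (hR : Rsv F D e Ex Res) (hDn : D ≤ n)
    (T : TreeC n) : ∀ L W, Con L → Res L W → L.card ≤ D →
    (univ.filter fun ω => FindC F Ex ω T L).card * 2 ^ (D - L.card) * 2 ^ (dm L ∩ W).card ≤
      nsolL F L * 2 ^ e * Fintype.card (Finset (Fin n × Bool) → Bool) := by
  induction T with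
  | leaf =>
    intro L W hL hRes hLD
    by_cases hD : Done F L
    · have h1 := nsolL_done F L hL hD
      have h2 : (univ.filter fun ω : Finset (Fin n × Bool) → Bool =>
          FindC F Ex ω TreeC.leaf L).card ≤ Fintype.card (Finset (Fin n × Bool) → Bool) := by
        rw [← Finset.card_univ]
        exact Finset.card_le_card (Finset.filter_subset _ _)
      have h3 : (dm L ∩ W).card ≤ e :=
        (Finset.card_le_card Finset.inter_subset_right).trans (hR.card L W hRes)
      have h4 : 2 ^ (D - L.card) ≤ nsolL F L :=
        (Nat.pow_le_pow_right (by norm_num) (by omega)).trans h1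
      have h5 : 2 ^ (dm L ∩ W).card ≤ 2 ^ e := Nat.pow_le_pow_right (by norm_num) h3
      calc _ ≤ Fintype.card (Finset (Fin n × Bool) → Bool) * nsolL F L * 2 ^ e :=
            Nat.mul_le_mul (Nat.mul_le_mul h2 h4) h5
        _ = _ := by ring
    · have h1 : (univ.filter fun ω : Finset (Fin n × Bool) → Bool =>
          FindC F Ex ω TreeC.leaf L) = ∅ := by
        rw [Finset.filter_eq_empty_iff]
        intro ω _ h
        exact hD h
      rw [h1, Finset.card_empty]
      simp
  | node v f ih =>
    intro L W hL hRes hLD
    by_cases hv : v ∈ dm L
    · -- the variable has a value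
      obtain ⟨⟨u, b⟩, hub, hu⟩ := Finset.mem_image.1 hv
      have hu' : u = v := hu
      subst hu'
      have h1 : (univ.filter fun ω => FindC F Ex ω (TreeC.node u f) L).card ≤
          (univ.filter fun ω => FindC F Ex ω (f b b) L).card := by
        refine Finset.card_le_card fun ω hω => ?_
        rw [Finset.mem_filter] at hω ⊢
        refine ⟨Finset.mem_univ _, ?_⟩
        rcases hω.2 with ⟨b', hb', hF⟩ | ⟨hn, _⟩
        · have hbb : b' = b := by
            by_contra hne
            apply hL u b' hb'
            have : (!b') = b := by cases b <;> cases b' <;> simp_all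
            rw [this]
            exact hub
          rw [hbb] at hF
          exact hF
        · exact absurd hub (hn b)
      have h2 := ih b b L W hL hRes hLD
      exact le_trans (Nat.mul_le_mul_right _ (Nat.mul_le_mul_right _ h1)) h2
    · rcases Nat.lt_or_ge L.card D with hlt | hge
      swap
      · -- depth `D`
        have hD0 : D - L.card = 0 := by omega
        rw [hD0, pow_zero, mul_one]
        by_cases hem : (univ.filter fun ω => FindC F Ex ω (TreeC.node v f) L) = ∅
        · rw [hem, Finset.card_empty, Nat.zero_mul]
          exact Nat.zero_le _
        · obtain ⟨ω, hω⟩ := Finset.nonempty_iff_ne_empty.2 hem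
          obtain ⟨τ, h1, h2⟩ := findC_sat F Ex ω _ L hL (Finset.mem_filter.1 hω).2
          have h3 : 1 ≤ nsolL F L := Finset.card_pos.2 ⟨τ, Finset.mem_filter.2
            ⟨Finset.mem_univ _, h1, h2⟩⟩
          have h4 : (univ.filter fun ω : Finset (Fin n × Bool) → Bool =>
              FindC F Ex ω (TreeC.node v f) L).card ≤
              Fintype.card (Finset (Fin n × Bool) → Bool) := by
            rw [← Finset.card_univ]
            exact Finset.card_le_card (Finset.filter_subset _ _)
          have h5 : (dm L ∩ W).card ≤ e :=
            (Finset.card_le_card Finset.inter_subset_right).trans (hR.card L W hRes)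
          have h6 : 2 ^ (dm L ∩ W).card ≤ 2 ^ e := Nat.pow_le_pow_right (by norm_num) h5
          calc _ ≤ Fintype.card (Finset (Fin n × Bool) → Bool) * 2 ^ e := Nat.mul_le_mul h4 h6
            _ = 1 * 2 ^ e * Fintype.card (Finset (Fin n × Bool) → Bool) := by ring
            _ ≤ _ := Nat.mul_le_mul_right _ (Nat.mul_le_mul_right _ h3)
      · -- the main case
        have hnb : ∀ b, (v, b) ∉ L := fun b hb => hv (Finset.mem_image.2 ⟨(v, b), hb, rfl⟩)
        have hcard : ∀ b, (insert (v, b) L).card = L.card + 1 := fun b =>
          Finset.card_insert_of_notMem (hnb b)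
        -- the subtrees
        have hsub : ∀ a b, (univ.filter fun ω => FindC F Ex ω (f a b) (insert (v, b) L)).card *
            2 ^ (D - L.card - 1) * 2 ^ ((dm L ∩ W).card + if v ∈ W then 1 else 0) ≤
            nsolL F (insert (v, b) L) * 2 ^ e *
              Fintype.card (Finset (Fin n × Bool) → Bool) := by
          intro a b
          by_cases hem : (univ.filter fun ω => FindC F Ex ω (f a b) (insert (v, b) L)) = ∅
          · rw [hem, Finset.card_empty, Nat.zero_mul, Nat.zero_mul]
            exact Nat.zero_le _
          · obtain ⟨ω, hω⟩ := Finset.nonempty_iff_ne_empty.2 hem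
            obtain ⟨τ, h1, h2⟩ := findC_sat F Ex ω _ _ (con_insert hL (hnb _))
              (Finset.mem_filter.1 hω).2
            obtain ⟨W', hW, hRes'⟩ := hR.step L W v b τ hRes hlt hv h1 h2
            have h3 := ih a b (insert (v, b) L) W' (con_insert hL (hnb _)) hRes'
              (by rw [hcard]; omega)
            rw [hcard, ← Nat.sub_sub] at h3
            refine le_trans (Nat.mul_le_mul_left _ (Nat.pow_le_pow_right (by norm_num) ?_)) h3
            rw [dm_insert]
            by_cases hvW : v ∈ W
            · rw [if_pos hvW]
              have h4 : v ∉ dm L ∩ W := fun h => hv (Finset.mem_inter.1 h).1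
              rw [← Finset.card_insert_of_notMem h4]
              refine Finset.card_le_card fun u hu => ?_
              rw [Finset.mem_inter, Finset.mem_insert]
              rcases Finset.mem_insert.1 hu with rfl | hu
              · exact ⟨Or.inl rfl, hW hvW⟩
              · exact ⟨Or.inr (Finset.mem_inter.1 hu).1, hW (Finset.mem_inter.1 hu).2⟩
            · rw [if_neg hvW, Nat.add_zero]
              refine Finset.card_le_card fun u hu => ?_
              rw [Finset.mem_inter, Finset.mem_insert]
              exact ⟨Or.inr (Finset.mem_inter.1 hu).1, hW (Finset.mem_inter.1 hu).2⟩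
        have hhalf : ∀ a b, 2 * (univ.filter fun ω : Finset (Fin n × Bool) → Bool =>
            ω L = a ∧ FindC F Ex ω (f a b) (insert (v, b) L)).card =
            (univ.filter fun ω => FindC F Ex ω (f a b) (insert (v, b) L)).card := by
          intro a b
          refine hIND (Finset (Fin n × Bool)) L a
            (fun ω => FindC F Ex ω (f a b) (insert (v, b) L)) (fun ω ω' hω => ?_)
          refine findC_congr F Ex ω ω' _ _ fun L' hL' => hω L' fun heq => ?_
          rw [heq] at hL'
          exact hnb b (hL' (Finset.mem_insert_self _ _))
        set N := Fintype.card (Finset (Fin n × Bool) → Bool) with hN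
        have hpow : ∀ x y : ℕ, x * 2 ^ (D - L.card) * y = (2 * x) * 2 ^ (D - L.card - 1) * y := by
          intro x y
          have h1 : D - L.card = (D - L.card - 1) + 1 := by omega
          conv_lhs => rw [h1, pow_succ]
          ring
        by_cases hvW : v ∈ W
        · simp only [if_pos hvW] at hsub
          have hle : (univ.filter fun ω => FindC F Ex ω (TreeC.node v f) L).card ≤
              ((univ.filter fun ω : Finset (Fin n × Bool) → Bool =>
                ω L = true ∧ FindC F Ex ω (f true true) (insert (v, true) L)).card +
              (univ.filter fun ω : Finset (Fin n × Bool) → Bool =>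
                ω L = true ∧ FindC F Ex ω (f true false) (insert (v, false) L)).card) +
              ((univ.filter fun ω : Finset (Fin n × Bool) → Bool =>
                ω L = false ∧ FindC F Ex ω (f false true) (insert (v, true) L)).card +
              (univ.filter fun ω : Finset (Fin n × Bool) → Bool =>
                ω L = false ∧ FindC F Ex ω (f false false) (insert (v, false) L)).card) := by
            refine le_trans (Finset.card_le_card (t := ((univ.filter fun
                ω : Finset (Fin n × Bool) → Bool =>
                ω L = true ∧ FindC F Ex ω (f true true) (insert (v, true) L)) ∪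
              (univ.filter fun ω : Finset (Fin n × Bool) → Bool =>
                ω L = true ∧ FindC F Ex ω (f true false) (insert (v, false) L))) ∪
              ((univ.filter fun ω : Finset (Fin n × Bool) → Bool =>
                ω L = false ∧ FindC F Ex ω (f false true) (insert (v, true) L)) ∪
              (univ.filter fun ω : Finset (Fin n × Bool) → Bool =>
                ω L = false ∧ FindC F Ex ω (f false false) (insert (v, false) L))))
              fun ω hω => ?_) (le_trans (Finset.card_union_le _ _)
                (Nat.add_le_add (Finset.card_union_le _ _) (Finset.card_union_le _ _)))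
            simp only [Finset.mem_union, Finset.mem_filter, Finset.mem_univ, true_and]
            rcases (Finset.mem_filter.1 hω).2 with ⟨b, hb, _⟩ | ⟨_, b, _, hF⟩
            · exact absurd hb (hnb b)
            · rcases ha : ω L with _ | _
              · rw [ha] at hF
                right
                cases b
                · exact Or.inr ⟨rfl, hF⟩
                · exact Or.inl ⟨rfl, hF⟩
              · rw [ha] at hF
                left
                cases b
                · exact Or.inr ⟨rfl, hF⟩
                · exact Or.inl ⟨rfl, hF⟩
          have h1 := hsub true true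
          have h2 := hsub true false
          have h3 := hsub false true
          have h4 := hsub false false
          rw [← hhalf] at h1 h2 h3 h4
          have h5 := nsolL_split F L v
          refine Nat.le_of_mul_le_mul_left ?_ (show 0 < 2 by norm_num)
          set c := (univ.filter fun ω => FindC F Ex ω (TreeC.node v f) L).card
          set c1 := (univ.filter fun ω : Finset (Fin n × Bool) → Bool =>
                ω L = true ∧ FindC F Ex ω (f true true) (insert (v, true) L)).card
          set c2 := (univ.filter fun ω : Finset (Fin n × Bool) → Bool =>
                ω L = true ∧ FindC F Ex ω (f true false) (insert (v, false) L)).card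
          set c3 := (univ.filter fun ω : Finset (Fin n × Bool) → Bool =>
                ω L = false ∧ FindC F Ex ω (f false true) (insert (v, true) L)).card
          set c4 := (univ.filter fun ω : Finset (Fin n × Bool) → Bool =>
                ω L = false ∧ FindC F Ex ω (f false false) (insert (v, false) L)).card
          calc 2 * (c * 2 ^ (D - L.card) * 2 ^ (dm L ∩ W).card)
              = (2 * c) * 2 ^ (D - L.card - 1) * 2 ^ ((dm L ∩ W).card + 1) := by
                rw [hpow, pow_succ]; ring
            _ ≤ (2 * ((c1 + c2) + (c3 + c4))) * 2 ^ (D - L.card - 1) *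
                2 ^ ((dm L ∩ W).card + 1) :=
                Nat.mul_le_mul_right _ (Nat.mul_le_mul_right _ (Nat.mul_le_mul_left _ hle))
            _ = (2 * c1 * 2 ^ (D - L.card - 1) * 2 ^ ((dm L ∩ W).card + 1) +
                  2 * c2 * 2 ^ (D - L.card - 1) * 2 ^ ((dm L ∩ W).card + 1)) +
                (2 * c3 * 2 ^ (D - L.card - 1) * 2 ^ ((dm L ∩ W).card + 1) +
                  2 * c4 * 2 ^ (D - L.card - 1) * 2 ^ ((dm L ∩ W).card + 1)) := by ring
            _ ≤ (nsolL F (insert (v, true) L) * 2 ^ e * N +
                  nsolL F (insert (v, false) L) * 2 ^ e * N) +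
                (nsolL F (insert (v, true) L) * 2 ^ e * N +
                  nsolL F (insert (v, false) L) * 2 ^ e * N) :=
                Nat.add_le_add (Nat.add_le_add h1 h2) (Nat.add_le_add h3 h4)
            _ = 2 * (nsolL F L * 2 ^ e * N) := by rw [h5]; ring
        · simp only [if_neg hvW, Nat.add_zero] at hsub
          have hle : (univ.filter fun ω => FindC F Ex ω (TreeC.node v f) L).card ≤
              (univ.filter fun ω : Finset (Fin n × Bool) → Bool =>
                ω L = true ∧ FindC F Ex ω (f true true) (insert (v, true) L)).card +
              (univ.filter fun ω : Finset (Fin n × Bool) → Bool =>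
                ω L = false ∧ FindC F Ex ω (f false false) (insert (v, false) L)).card := by
            refine le_trans (Finset.card_le_card (t := (univ.filter fun
                ω : Finset (Fin n × Bool) → Bool =>
                ω L = true ∧ FindC F Ex ω (f true true) (insert (v, true) L)) ∪
              (univ.filter fun ω : Finset (Fin n × Bool) → Bool =>
                ω L = false ∧ FindC F Ex ω (f false false) (insert (v, false) L)))
              fun ω hω => ?_) (Finset.card_union_le _ _)
            simp only [Finset.mem_union, Finset.mem_filter, Finset.mem_univ, true_and]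
            rcases (Finset.mem_filter.1 hω).2 with ⟨b, hb, _⟩ | ⟨_, b, hc, hF⟩
            · exact absurd hb (hnb b)
            · have hωb : ω L = b := by
                rcases hc with hc | hc
                · exact hc
                · obtain ⟨τ, h1, h2⟩ := findC_sat F Ex ω _ _ (con_insert hL (hnb _)) hF
                  exact absurd hc (hR.free L W v b τ hRes hlt hv hvW h1 h2)
              rw [hωb] at hF ⊢
              cases b
              · exact Or.inr ⟨rfl, hF⟩
              · exact Or.inl ⟨rfl, hF⟩
          have h1 := hsub true true
          have h4 := hsub false false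
          rw [← hhalf] at h1 h4
          have h5 := nsolL_split F L v
          set c := (univ.filter fun ω => FindC F Ex ω (TreeC.node v f) L).card
          set c1 := (univ.filter fun ω : Finset (Fin n × Bool) → Bool =>
                ω L = true ∧ FindC F Ex ω (f true true) (insert (v, true) L)).card
          set c4 := (univ.filter fun ω : Finset (Fin n × Bool) → Bool =>
                ω L = false ∧ FindC F Ex ω (f false false) (insert (v, false) L)).card
          calc c * 2 ^ (D - L.card) * 2 ^ (dm L ∩ W).card
              = (2 * c) * 2 ^ (D - L.card - 1) * 2 ^ (dm L ∩ W).card := hpow _ _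
            _ ≤ (2 * (c1 + c4)) * 2 ^ (D - L.card - 1) * 2 ^ (dm L ∩ W).card :=
                Nat.mul_le_mul_right _ (Nat.mul_le_mul_right _ (Nat.mul_le_mul_left _ hle))
            _ = 2 * c1 * 2 ^ (D - L.card - 1) * 2 ^ (dm L ∩ W).card +
                  2 * c4 * 2 ^ (D - L.card - 1) * 2 ^ (dm L ∩ W).card := by ring
            _ ≤ nsolL F (insert (v, true) L) * 2 ^ e * N +
                  nsolL F (insert (v, false) L) * 2 ^ e * N := Nat.add_le_add h1 h4
            _ = nsolL F L * 2 ^ e * N := by rw [h5]; ring

theorem pf_DR2 (hIND : T_IND) : T_DR2 := by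
  classical
  intro n k m F D e Ex Res hR hDn T
  have h := mainC hIND n k m F D e Ex Res hR hDn T ∅ ∅ (fun v b hb => by simp at hb) hR.init
    (by simp)
  rw [Finset.card_empty, Nat.sub_zero, Finset.inter_empty, Finset.card_empty, pow_zero,
    mul_one] at h
  have hn : nsolL F ∅ = nsol F := by
    unfold nsolL nsol
    congr 1
    ext τ
    simp only [Finset.mem_filter, Finset.mem_univ, true_and]
    exact ⟨fun h => h.1, fun h => ⟨h, fun l hl => by simp at hl⟩⟩
  rw [hn] at h
  exact h

end Pool.Agent.H14.PL
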