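import Pool.Agent.H47.PL.Targets2
import Pool.Agent.H74.PL.MYO

/-!
Planted random k-CNFs and backtracking search (MP_c62aed_lc), row MYU: the protocols, uniform
formulas.
-/

set_option autoImplicit false

namespace Pool.Agent.H14.PL

open Finset Pool.Agent.H97.RK Pool.Agent.H47.PL Pool.Agent.H74.PL.MYO

/-- the number of the formulas with distinct variables in the clauses -/
private theorem card_dist (hPRS : T_PRS) (n k m : ℕ) [DecidablePred fun F : Fml n k m => Dist F]
    [DecidablePred fun g : Fin m → Fin k → Fin n => ∀ c, Function.Injective (g c)] :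
    (univ.filter fun F : Fml n k m => Dist F).card =
      (univ.filter fun g : Fin m → Fin k → Fin n => ∀ c, Function.Injective (g c)).card *
        (2 ^ k) ^ m := by
  classical
  obtain ⟨-, hp2⟩ := hPRS n k m
  have h1 := hp2 fun _ => True
  have h2 : (univ.filter fun a : Fml n k m × (Fin n → Bool) => Dist a.1 ∧ True).card =
      (univ.filter fun F : Fml n k m => Dist F).card * 2 ^ n := by
    have h3 : (univ.filter fun a : Fml n k m × (Fin n → Bool) => Dist a.1 ∧ True) =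
        (univ.filter fun F : Fml n k m => Dist F) ×ˢ (univ : Finset (Fin n → Bool)) := by
      ext a
      simp
    rw [h3, Finset.card_product, Finset.card_univ, Fintype.card_fun, Fintype.card_bool,
      Fintype.card_fin]
  have h4 : ∀ g : Fin m → Fin k → Fin n,
      (univ.filter fun x : (Fin m → Fin k → Bool) × (Fin n → Bool) =>
        (fun _ : Fml n k m × (Fin n → Bool) => True) (mk g x.1, x.2)).card =
      (2 ^ k) ^ m * 2 ^ n := by
    intro g
    have h5 : (univ.filter fun x : (Fin m → Fin k → Bool) × (Fin n → Bool) =>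
        (fun _ : Fml n k m × (Fin n → Bool) => True) (mk g x.1, x.2)) = univ := by
      ext x
      simp
    rw [h5, Finset.card_univ, Fintype.card_prod, Fintype.card_fun, Fintype.card_fun,
      Fintype.card_fun, Fintype.card_bool, Fintype.card_fin, Fintype.card_fin, Fintype.card_fin]
  have h6 : (univ.filter fun a : Fml n k m × (Fin n → Bool) => Dist a.1 ∧ True).card =
      ∑ g ∈ univ.filter fun g : Fin m → Fin k → Fin n => ∀ c, Function.Injective (g c),
        ((2 ^ k) ^ m * 2 ^ n) := by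
    refine ((cfi fun _ => Iff.rfl).trans h1).trans ?_
    refine Finset.sum_congr ?_ fun g _ => ?_
    · ext g
      simp only [Finset.mem_filter]
    · exact (cfi fun _ => Iff.rfl).trans (h4 g)
  rw [h2, Finset.sum_const, smul_eq_mul, ← mul_assoc] at h6
  exact Nat.eq_of_mul_eq_mul_right (Nat.two_pow_pos n) h6

theorem pf_MYU (hPAD : T_PAD) (hWLK : T_WLK) (hKEY : T_KEY) (hPRS : T_PRS) : T_MYU := by
  classical
  intro n k m D e q G Ex hD hG P hP
  obtain ⟨w, hw⟩ : ∃ w : Fml n k m → List Bool → Finset (Fin n × Bool),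
    w = fun F β => walk F (pad (P (vars F))) β ∅ := ⟨_, rfl⟩
  obtain ⟨-, hp2⟩ := hPRS n k m
  have hcd := card_dist hPRS n k m
  have hsub : (univ.filter fun F : Fml n k m => Dist F ∧ F ∈ G ∧
      FindP F (Ex F) (P (vars F)) ∅) ⊆
      (LB D e).biUnion fun β => ((univ.filter fun p : Fml n k m × (Fin n → Bool) =>
        Dist p.1 ∧ Sat p.1 p.2 ∧ (w p.1 β).card = β.length ∧ Agr p.2 (w p.1 β)).image
          Prod.fst) := by
    intro F hF
    rw [Finset.mem_filter] at hF
    obtain ⟨_, h1, h2, h3⟩ := hF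
    obtain ⟨Res, g2⟩ := hG F h2
    have h5 := (hPAD n k m F (Ex F) (P (vars F))).1 h3
    obtain ⟨β, b1, b2, b3, τ, b4, b5⟩ := hWLK n k m F D e (Ex F) Res g2 hD _ h5
    rw [Finset.mem_biUnion]
    refine ⟨β, mem_LB D e β b1 b2, ?_⟩
    rw [Finset.mem_image]
    refine ⟨(F, τ), ?_, rfl⟩
    rw [Finset.mem_filter]
    refine ⟨Finset.mem_univ _, h1, b4, ?_, ?_⟩
    · rw [hw, b1]; exact b3
    · rw [hw]; exact b5
  have h2 : (univ.filter fun F : Fml n k m => Dist F ∧ F ∈ G ∧
      FindP F (Ex F) (P (vars F)) ∅).card ≤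
      ∑ β ∈ LB D e, (univ.filter fun p : Fml n k m × (Fin n → Bool) =>
        Dist p.1 ∧ Sat p.1 p.2 ∧ (w p.1 β).card = β.length ∧ Agr p.2 (w p.1 β)).card := by
    refine (Finset.card_le_card hsub).trans (Finset.card_biUnion_le.trans ?_)
    exact Finset.sum_le_sum fun β _ => Finset.card_image_le
  have h3 : ((univ.filter fun F : Fml n k m => Dist F ∧ F ∈ G ∧
      FindP F (Ex F) (P (vars F)) ∅).card : ℝ) ≤
      ∑ β ∈ LB D e, ((univ.filter fun p : Fml n k m × (Fin n → Bool) =>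
        Dist p.1 ∧ Sat p.1 p.2 ∧ (w p.1 β).card = β.length ∧ Agr p.2 (w p.1 β)).card : ℝ) := by
    exact_mod_cast h2
  have hk1 : (1 : ℕ) ≤ 2 ^ k := Nat.one_le_two_pow
  have hX0 : (0 : ℝ) ≤ 1 - (1 / 2 : ℝ) ^ k := by
    have : (1 / 2 : ℝ) ^ k ≤ 1 := pow_le_one₀ (by norm_num) (by norm_num)
    linarith
  have hX : (0 : ℝ) ≤ 2 ^ D * (1 - (1 / 2 : ℝ) ^ k) ^ q :=
    mul_nonneg (by positivity) (pow_nonneg hX0 _)
  have hconv : ∀ t : ℕ, (1 - (1 / 2 : ℝ) ^ k) ^ t * (2 ^ k) ^ t = (((2 ^ k - 1 : ℕ) : ℝ)) ^ t := by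
    intro t
    rw [Nat.cast_sub hk1, ← mul_pow]
    congr 1
    push_cast
    rw [sub_mul, one_mul, ← mul_pow]
    norm_num
  set Xq : ℝ := (1 - (1 / 2 : ℝ) ^ k) ^ q with hXq
  set Xm : ℝ := (1 - (1 / 2 : ℝ) ^ k) ^ m with hXm
  have h4 : ∀ β ∈ LB D e, ((univ.filter fun p : Fml n k m × (Fin n → Bool) =>
      Dist p.1 ∧ Sat p.1 p.2 ∧ (w p.1 β).card = β.length ∧ Agr p.2 (w p.1 β)).card : ℝ) *
      (2 ^ D * Xq) ≤ (2 ^ n * Xm) * (univ.filter fun F : Fml n k m => Dist F).card := by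
    intro β hβ
    have hlen := len_LB D e β hβ
    have e1 := hp2 fun a => Sat a.1 a.2 ∧ (w a.1 β).card = β.length ∧ Agr a.2 (w a.1 β)
    have e2 : ∀ g : Fin m → Fin k → Fin n,
        (univ.filter fun x : (Fin m → Fin k → Bool) × (Fin n → Bool) =>
          (fun a : Fml n k m × (Fin n → Bool) => Sat a.1 a.2 ∧ (w a.1 β).card = β.length ∧
            Agr a.2 (w a.1 β)) (mk g x.1, x.2)).card * (2 ^ D * (2 ^ k - 1) ^ q) ≤
        2 ^ n * (2 ^ k - 1) ^ m * 2 ^ (k * q) := by
      intro g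
      have e3 := hKEY n k m g (pad (P g)) q β ((hPAD n k m (fun c i => (g c i, true))
        (fun _ => True) (P g)).2 q (hP g))
      rw [hlen] at e3
      rw [hw, hlen]
      exact e3
    have e4 : (univ.filter fun p : Fml n k m × (Fin n → Bool) =>
        Dist p.1 ∧ Sat p.1 p.2 ∧ (w p.1 β).card = β.length ∧ Agr p.2 (w p.1 β)).card *
        (2 ^ D * (2 ^ k - 1) ^ q) ≤
        (univ.filter fun g : Fin m → Fin k → Fin n => ∀ c, Function.Injective (g c)).card *
          (2 ^ n * (2 ^ k - 1) ^ m * 2 ^ (k * q)) := by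
      have e1' : (univ.filter fun p : Fml n k m × (Fin n → Bool) =>
        Dist p.1 ∧ Sat p.1 p.2 ∧ (w p.1 β).card = β.length ∧ Agr p.2 (w p.1 β)).card = _ :=
        (cfi fun _ => Iff.rfl).trans e1
      rw [e1', Finset.sum_mul]
      have e6 := (Finset.sum_le_card_nsmul (univ.filter fun g : Fin m → Fin k → Fin n =>
        ∀ c, Function.Injective (g c)) (fun g => (univ.filter fun
          x : (Fin m → Fin k → Bool) × (Fin n → Bool) =>
          (fun a : Fml n k m × (Fin n → Bool) => Sat a.1 a.2 ∧ (w a.1 β).card = β.length ∧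
            Agr a.2 (w a.1 β)) (mk g x.1, x.2)).card * (2 ^ D * (2 ^ k - 1) ^ q)) _
          fun g _ => e2 g)
      rw [smul_eq_mul] at e6
      refine le_trans (le_of_eq ?_) e6
      refine Finset.sum_congr ?_ fun g _ => ?_
      · ext g
        simp only [Finset.mem_filter]
      · exact congrArg (· * (2 ^ D * (2 ^ k - 1) ^ q)) (cfi fun _ => Iff.rfl)
    have e5 : (((univ.filter fun p : Fml n k m × (Fin n → Bool) =>
        Dist p.1 ∧ Sat p.1 p.2 ∧ (w p.1 β).card = β.length ∧ Agr p.2 (w p.1 β)).card *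
        (2 ^ D * (2 ^ k - 1) ^ q) : ℕ) : ℝ) ≤
        (((univ.filter fun g : Fin m → Fin k → Fin n => ∀ c, Function.Injective (g c)).card *
          (2 ^ n * (2 ^ k - 1) ^ m * 2 ^ (k * q)) : ℕ) : ℝ) := by exact_mod_cast e4
    rw [Nat.cast_mul, Nat.cast_mul, Nat.cast_mul, Nat.cast_mul, Nat.cast_mul,
      Nat.cast_pow ((2 ^ k - 1 : ℕ)), Nat.cast_pow ((2 ^ k - 1 : ℕ)), ← hconv, ← hconv,
      ← hXq, ← hXm] at e5
    have e6 : (0 : ℝ) < (2 ^ k) ^ q := by positivity
    rw [hcd]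
    refine le_of_mul_le_mul_right ?_ e6
    refine le_trans (le_of_eq ?_) (e5.trans (le_of_eq ?_))
    · push_cast
      ring
    · push_cast
      rw [pow_mul]
      ring
  have hbl : (((LB D e).card : ℕ) : ℝ) ≤ (bl n e : ℝ) := by
    exact_mod_cast (card_LB D e).trans (bl_mono hD e)
  have hXm0 : 0 ≤ Xm := pow_nonneg hX0 _
  calc _ ≤ (∑ β ∈ LB D e, ((univ.filter fun p : Fml n k m × (Fin n → Bool) =>
      Dist p.1 ∧ Sat p.1 p.2 ∧ (w p.1 β).card = β.length ∧ Agr p.2 (w p.1 β)).card : ℝ)) *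
      (2 ^ D * Xq) := mul_le_mul_of_nonneg_right h3 hX
    _ = ∑ β ∈ LB D e, ((univ.filter fun p : Fml n k m × (Fin n → Bool) =>
      Dist p.1 ∧ Sat p.1 p.2 ∧ (w p.1 β).card = β.length ∧ Agr p.2 (w p.1 β)).card : ℝ) *
      (2 ^ D * Xq) := Finset.sum_mul _ _ _
    _ ≤ (LB D e).card • ((2 ^ n * Xm) * ((univ.filter fun F : Fml n k m => Dist F).card : ℝ)) :=
      Finset.sum_le_card_nsmul _ _ _ h4
    _ = ((LB D e).card : ℝ) * ((2 ^ n * Xm) *
        ((univ.filter fun F : Fml n k m => Dist F).card : ℝ)) := nsmul_eq_mul _ _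
    _ ≤ (bl n e : ℝ) * ((2 ^ n * Xm) *
        ((univ.filter fun F : Fml n k m => Dist F).card : ℝ)) :=
      mul_le_mul_of_nonneg_right hbl (by positivity)
    _ = _ := by ring

end Pool.Agent.H14.PL
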